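import Pool.Agent.helper62.DP8.Spec

/-!
# Project sq8: (MP_e3efbc_co): module SOO

Two labels with a common neighbour which is not a label are a pair of the table `O`.
-/

set_option autoImplicit false

namespace Pool.Agent.helper62.DP8

/-- A label with a neighbour which is not a label is in the table `D2`. -/
theorem SOO_D2 (hTRR : TRR_stmt) (hTDD : TDD_stmt) (V : Type) (G : SimpleGraph V) (g : ℕ) (s : St) (v : ℕ → V) (hC : Cub G) (hR : Real G s v) (x : ℕ)
    (hx : x < s.n) (z : V) (hz : ∀ w < s.n, z ≠ v w) (ha : G.Adj (v x) z) : tb (tbl g s).D2 x = true := by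
  obtain ⟨-, h2, h3⟩ := hTDD V G g s v hC hR
  obtain ⟨-, ht⟩ := hTRR V G g s v hR
  rw [h2]
  refine ⟨hx, ?_⟩
  obtain ⟨U, hU, hm⟩ := h3 x hx
  have h4 : z ∈ U := by
    rw [hm]
    exact ⟨ha, fun y hy => hz y (ht x y hy).2.1⟩
  have h5 : 0 < U.card := Finset.card_pos.mpr ⟨z, h4⟩
  omega

theorem SOO (hBIT : BIT_stmt) (hTAB : TAB_stmt) (hWTB : WTB_stmt) (hTRR : TRR_stmt) (hTDD : TDD_stmt) (hBAL : BAL_stmt) : SOO_stmt := by
  intro V G g s v hg hC hG hR x y hx hy hxy z hz hxz hzy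
  have hDx := SOO_D2 hTRR hTDD V G g s v hC hR x hx z hz hxz
  have hDy := SOO_D2 hTRR hTDD V G g s v hC hR y hy z hz hzy.symm
  have hO := (hWTB.2.1 g s).2.2.2.2.1
  rw [hO, hTAB.2.2.1]
  refine ⟨hx, lt_of_lt_of_le hy hR.n32, ?_⟩
  rw [hDx, cond_true, hBIT.2.2.2.1, hDy, Bool.true_and]
  rw [Bool.not_eq_true', Bool.eq_false_iff]
  intro hb
  obtain ⟨-, -, p, hp, hl, hs, -⟩ := hBAL V G g s v hR (g - 3) x y hb
  have hzs : z ∉ p.support := by
    intro h
    obtain ⟨w, hw, e⟩ := hs z h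
    exact hz w hw e
  have hq : (SimpleGraph.Walk.cons hxz.symm p).IsPath := by
    rw [SimpleGraph.Walk.cons_isPath_iff]
    exact ⟨hp, hzs⟩
  have hc : (SimpleGraph.Walk.cons hzy.symm (SimpleGraph.Walk.cons hxz.symm p)).IsCycle := by
    rw [SimpleGraph.Walk.cons_isCycle_iff]
    refine ⟨hq, ?_⟩
    rw [SimpleGraph.Walk.edges_cons, List.mem_cons]
    rintro (h | h)
    · rw [Sym2.eq_iff] at h
      rcases h with ⟨h1, h2⟩ | ⟨h1, h2⟩
      · exact hz y hy h1.symm
      · exact hxy (hR.inj x hx y hy h1.symm)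
    · exact hzs (SimpleGraph.Walk.snd_mem_support_of_mem_edges p h)
  have h1 := hG _ _ hc
  rw [SimpleGraph.Walk.length_cons, SimpleGraph.Walk.length_cons] at h1
  omega

end Pool.Agent.helper62.DP8
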